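import Pool.Agent.helper52.HY.Spec

set_option autoImplicit false

open Complex Metric Set Filter Topology MeasureTheory
open Pool.Agent.helper98.ILF Pool.Agent.helper16.Multibrot

noncomputable section

namespace HY

/-- the inverse of an injective holomorphic function on the disc is continuous on the image. -/
lemma GRO_inv (hKO0 : V3.KO0_stmt) (hKO1 : V3.KO1_stmt) (φ : ℂ → ℂ) (hd : DifferentiableOn ℂ φ UD)
    (hi : InjOn φ UD) : ContinuousOn (Function.invFunOn φ UD) (φ '' UD) := by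
  obtain ⟨C, hC1, hC⟩ := hKO1
  rintro z ⟨y, hy, rfl⟩
  have hinv : ∀ x ∈ UD, Function.invFunOn φ UD (φ x) = x := fun x hx =>
    hi.leftInvOn_invFunOn hx
  rw [Metric.continuousWithinAt_iff]
  intro e he
  rw [hinv y hy]
  have hy1 : ‖y‖ < 1 := by simpa [UD] using hy
  set r := min e (1 - ‖y‖) with hr
  have hr0 : 0 < r := lt_min he (by linarith)
  have hsub : ball y r ⊆ UD := by
    intro x hx
    rw [mem_ball] at hx
    have h1 : dist x y < 1 - ‖y‖ := hx.trans_le (min_le_right _ _)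
    rw [dist_eq_norm] at h1
    have h2 : ‖x‖ ≤ ‖x - y‖ + ‖y‖ := by
      have := norm_add_le (x - y) y
      simpa using this
    simp only [UD, mem_ball, dist_zero_right]
    linarith
  have hd0 : deriv φ y ≠ 0 := hKO0 φ UD isOpen_ball hd hi y hy
  have hpos : 0 < ‖deriv φ y‖ := norm_pos_iff.2 hd0
  have hCp : 0 < C := by linarith
  have h1 := hC φ y r hr0 (hd.mono hsub) (hi.mono hsub)
  refine ⟨r * ‖deriv φ y‖ / C, by positivity, ?_⟩
  intro z' _ hz'
  obtain ⟨x, hx, hxz⟩ := h1 (mem_ball.2 hz')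
  rw [← hxz, hinv x (hsub hx)]
  exact (mem_ball.1 hx).trans_le (min_le_left _ _)

/-- lower bound for the hyperbolic derivative on a compact set. -/
lemma GRO_kap (hKO0 : V3.KO0_stmt) (hKO1 : V3.KO1_stmt) (φ : ℂ → ℂ) (hd : DifferentiableOn ℂ φ UD)
    (hi : InjOn φ UD) (K : Set ℂ) (hK : IsCompact K) (hne : K.Nonempty) (hsub : K ⊆ φ '' UD) :
    ∃ κ > (0 : ℝ), ∀ y ∈ UD, φ y ∈ K → κ ≤ ‖deriv φ y‖ * (1 - ‖y‖ ^ 2) := by
  have hg := GRO_inv hKO0 hKO1 φ hd hi
  have hinv : ∀ x ∈ UD, Function.invFunOn φ UD (φ x) = x := fun x hx =>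
    hi.leftInvOn_invFunOn hx
  have hP : IsCompact (Function.invFunOn φ UD '' K) := hK.image_of_continuousOn (hg.mono hsub)
  have hPne : (Function.invFunOn φ UD '' K).Nonempty := hne.image _
  have hPU : Function.invFunOn φ UD '' K ⊆ UD := by
    rintro _ ⟨z, hz, rfl⟩
    obtain ⟨x, hx, rfl⟩ := hsub hz
    rw [hinv x hx]
    exact hx
  have hcont : ContinuousOn (fun y : ℂ => ‖deriv φ y‖ * (1 - ‖y‖ ^ 2)) (Function.invFunOn φ UD '' K) := by
    have h1 : ContinuousOn (deriv φ) UD := (hd.deriv isOpen_ball).continuousOn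
    have h2 : ContinuousOn (deriv φ) (Function.invFunOn φ UD '' K) := h1.mono hPU
    exact h2.norm.mul (Continuous.continuousOn (by fun_prop))
  obtain ⟨y₀, hy₀, hmin⟩ := hP.exists_isMinOn hPne hcont
  have hy₀U := hPU hy₀
  have hy1 : ‖y₀‖ < 1 := by simpa [UD] using hy₀U
  have hd0 : deriv φ y₀ ≠ 0 := hKO0 φ UD isOpen_ball hd hi y₀ hy₀U
  refine ⟨‖deriv φ y₀‖ * (1 - ‖y₀‖ ^ 2), ?_, ?_⟩
  · apply mul_pos (norm_pos_iff.2 hd0)
    nlinarith [norm_nonneg y₀]
  · intro y hy hyK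
    exact hmin ⟨φ y, hyK, hinv y hy⟩

/-- one clean ball. -/
lemma GRO_ball (hHDI : HDI_stmt) (hKO1 : V3.KO1_stmt) : ∃ C : ℝ, 1 ≤ C ∧
    ∀ (n : ℕ) (c : ℂ) (φ H : ℂ → ℂ) (y₀ yj : ℂ) (j : ℕ) (κ L : ℝ), DifferentiableOn ℂ φ UD → InjOn φ UD →
    UN H → H 0 = y₀ → y₀ ∈ UD → yj ∈ UD →
    (∀ x ∈ UD, (fz n c)^[j] (φ (H x)) = φ (S yj (x / 16))) →
    0 < κ → κ ≤ ‖deriv φ yj‖ * (1 - ‖yj‖ ^ 2) → 0 < L → ‖deriv ((fz n c)^[j]) (φ y₀)‖ ≤ L →
    ball (φ y₀) (κ / (16 * L * C)) ⊆ {z | (fz n c)^[j] z ∈ φ '' UD} := by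
  obtain ⟨C, hC1, hC⟩ := hKO1
  refine ⟨C, hC1, ?_⟩
  intro n c φ H y₀ yj j κ L hφ hφi hH hH0 hy₀ hyj hrel hκ hκ2 hL hder
  have hCp : 0 < C := by linarith
  obtain ⟨_, _, h3⟩ := hHDI
  obtain ⟨hUN, hS0, hhd, _⟩ := h3 yj hyj
  have h0U : (0 : ℂ) ∈ UD := by simp [UD]
  have hUo : IsOpen UD := isOpen_ball
  -- Z
  have hZd : DifferentiableOn ℂ (fun x => φ (H x)) UD := hφ.comp hH.dif hH.map
  have hZi : InjOn (fun x => φ (H x)) UD := by
    intro a ha b hb hab
    exact hH.inj ha hb (hφi (hH.map ha) (hH.map hb) hab)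
  have hZat : DifferentiableAt ℂ (fun x => φ (H x)) 0 := (hZd 0 h0U).differentiableAt (hUo.mem_nhds h0U)
  -- derivative
  have hfd : Differentiable ℂ ((fz n c)^[j]) := by
    have h1 : Differentiable ℂ (fz n c) := by
      unfold fz
      fun_prop
    induction j with
    | zero => simp
    | succ j _ =>
      rw [Function.iterate_succ]
      have h2 : ∀ m : ℕ, Differentiable ℂ ((fz n c)^[m]) := by
        intro m
        induction m with
        | zero => simp
        | succ m ihm =>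
          rw [Function.iterate_succ]
          exact ihm.comp h1
      exact (h2 j).comp h1
  have hl : deriv (fun x => (fz n c)^[j] (φ (H x))) 0 =
      deriv ((fz n c)^[j]) (φ y₀) * deriv (fun x => φ (H x)) 0 := by
    have h1 : HasDerivAt ((fz n c)^[j]) (deriv ((fz n c)^[j]) (φ y₀)) (φ (H 0)) := by
      rw [hH0]
      exact (hfd (φ y₀)).hasDerivAt
    have h2 : HasDerivAt (fun x => φ (H x)) (deriv (fun x => φ (H x)) 0) 0 := hZat.hasDerivAt
    exact (HasDerivAt.comp (0 : ℂ) h1 h2).deriv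
  have hSat : DifferentiableAt ℂ (fun x => S yj (x / 16)) 0 :=
    (hUN.dif 0 h0U).differentiableAt (hUo.mem_nhds h0U)
  have hr : deriv (fun x => φ (S yj (x / 16))) 0 = deriv φ yj * deriv (fun x => S yj (x / 16)) 0 := by
    have h1 : HasDerivAt φ (deriv φ yj) ((fun x => S yj (x / 16)) 0) := by
      show HasDerivAt φ (deriv φ yj) (S yj (0 / 16))
      rw [hS0]
      exact ((hφ yj hyj).differentiableAt (hUo.mem_nhds hyj)).hasDerivAt
    exact (HasDerivAt.comp (0 : ℂ) h1 hSat.hasDerivAt).deriv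
  have heq : deriv (fun x => (fz n c)^[j] (φ (H x))) 0 = deriv (fun x => φ (S yj (x / 16))) 0 := by
    apply Filter.EventuallyEq.deriv_eq
    filter_upwards [hUo.mem_nhds h0U] with x hx
    exact hrel x hx
  have hSn : ‖deriv (fun x => S yj (x / 16)) 0‖ = 1 / 16 * (1 - ‖yj‖ ^ 2) := by
    have h1 : ‖yj‖ < 1 := by simpa [UD] using hyj
    have h2 : 0 < 1 - ‖yj‖ ^ 2 := by nlinarith [norm_nonneg yj]
    unfold hd at hhd
    have h4 : (fun x => S yj (x / 16)) 0 = yj := hS0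
    simp only [hS0] at hhd
    rw [div_eq_iff h2.ne'] at hhd
    exact hhd
  have hprod : ‖deriv ((fz n c)^[j]) (φ y₀)‖ * ‖deriv (fun x => φ (H x)) 0‖ =
      ‖deriv φ yj‖ * (1 / 16 * (1 - ‖yj‖ ^ 2)) := by
    rw [← norm_mul, ← hl, heq, hr, norm_mul, hSn]
  have hZ' : κ / (16 * L) ≤ ‖deriv (fun x => φ (H x)) 0‖ := by
    rw [div_le_iff₀ (by positivity)]
    have h1 : ‖deriv ((fz n c)^[j]) (φ y₀)‖ * ‖deriv (fun x => φ (H x)) 0‖ ≤
        L * ‖deriv (fun x => φ (H x)) 0‖ := mul_le_mul_of_nonneg_right hder (norm_nonneg _)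
    rw [hprod] at h1
    nlinarith
  have hb := hC (fun x => φ (H x)) 0 1 one_pos hZd hZi
  intro w hw
  have hw2 : w ∈ ball ((fun x => φ (H x)) 0) (1 * ‖deriv (fun x => φ (H x)) 0‖ / C) := by
    have h1 : (fun x => φ (H x)) 0 = φ y₀ := by simp [hH0]
    rw [h1]
    refine ball_subset_ball ?_ hw
    rw [one_mul, ← div_div]
    exact div_le_div_of_nonneg_right hZ' hCp.le
  obtain ⟨x, hx, rfl⟩ := hb hw2
  show (fz n c)^[j] (φ (H x)) ∈ φ '' UD
  rw [hrel x hx]
  exact ⟨_, hUN.map hx, rfl⟩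

/-- GRO: the derivative grows. -/
theorem GRO (hCLB : CLB_stmt) (hSHR : SHR_stmt) (hSGE : SGE_stmt) (hVKB : VKB_stmt) (hMOB : MOB_stmt)
    (hHDI : HDI_stmt) (hKO0 : V3.KO0_stmt) (hKO1 : V3.KO1_stmt) (hBRG : BR.BRG_stmt) : GRO_stmt := by
  intro n hn c hc hcl ε hε Λ₀
  have _ := hMOB
  -- the radius
  obtain ⟨r, hr, hdis⟩ : ∃ r > (0 : ℝ), Disjoint (ball c r) (hyperbolic n) := by
    rw [Metric.mem_closure_iff] at hcl
    push Not at hcl
    obtain ⟨r, hr, h⟩ := hcl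
    refine ⟨r, hr, ?_⟩
    rw [Set.disjoint_left]
    intro x hx hxh
    have h1 := h x hxh
    rw [mem_ball, dist_comm] at hx
    linarith
  have hint : interior (filled n c) = ∅ := (hBRG n c r hn hr hc hdis).2.1
  obtain ⟨M, hM⟩ := hCLB n hn r hr
  obtain ⟨k, hk⟩ := hSHR n c hn hc hint ε hε ((1 / 2 : ℝ) ^ M) (by positivity)
  obtain ⟨φ, ψ, b, hSG⟩ := hSGE n c hn hc k
  obtain ⟨_, hz0, _, hKc, hKf, _, _, hnest, _, hKV, hInt, _⟩ := hVKB n c hn hc
  have hrm := hSG.rm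
  have hKsub : filled n c ⊆ φ '' UD := by
    rw [hrm.img]
    exact hKV k
  obtain ⟨κ, hκ, hκ2⟩ := GRO_kap hKO0 hKO1 φ hrm.dif hrm.inj (filled n c) hKc ⟨0, hz0⟩ hKsub
  obtain ⟨C, hC1, hC⟩ := GRO_ball hHDI hKO1
  set L := max Λ₀ 1 with hL
  have hL0 : 0 < L := lt_max_of_lt_right one_pos
  have hCp : 0 < C := by linarith
  set ρ := κ / (16 * L * C) with hρ
  have hρ0 : 0 < ρ := by positivity
  by_contra hcon
  push Not at hcon
  have hanti : ∀ a b : ℕ, a ≤ b → VV n c b ⊆ VV n c a := by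
    intro a b hab
    induction b, hab using Nat.le_induction with
    | base => exact subset_rfl
    | succ m _ ih => exact (hnest m).trans ih
  have key : ∀ N : ℕ, ∃ z ∈ filled n c, ball z ρ ⊆ VV n c (k + N) := by
    intro N
    obtain ⟨j, hj, z, hz, hfar, hder⟩ := hcon N
    refine ⟨z, hz, ?_⟩
    have hiter : ∀ i : ℕ, (fz n c)^[i] z ∈ filled n c := by
      intro i
      induction i with
      | zero => simpa using hz
      | succ i ih =>
        rw [Function.iterate_succ_apply']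
        exact hKf _ ih
    have hex : ∀ i : ℕ, ∃ y ∈ UD, φ y = (fz n c)^[i] z := fun i => hKsub (hiter i)
    choose y hyU hyφ using hex
    have horb : Orb n c φ M y j := by
      refine ⟨fun i _ => hyU i, ?_, ?_⟩
      · intro i _
        rw [hyφ, hyφ, Function.iterate_succ_apply']
      · intro i hi
        refine hk φ hrm (y i) (hyU i) ?_ ?_
        · rw [hyφ]; exact hiter i
        · rw [hyφ]; exact hfar i hi
    obtain ⟨H, hH, hH0, hrel, _⟩ := hM c hc hdis (VV n c k) φ ψ b hSG y j horb 0 (Nat.zero_le _)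
    have hy0 : φ (y 0) = z := by rw [hyφ]; rfl
    have h1 := hC n c φ H (y 0) (y j) j κ L hrm.dif hrm.inj hH hH0 (hyU 0) (hyU j)
      (by simpa using hrel) hκ (hκ2 (y j) (hyU j) (by rw [hyφ]; exact hiter j)) hL0
      (by rw [hy0]; exact hder.trans (le_max_left _ _))
    rw [hy0] at h1
    intro w hw
    have h2 : (fz n c)^[j] w ∈ VV n c k := by
      rw [← hrm.img]
      exact h1 hw
    have h3 : w ∈ VV n c (k + j) := by
      show ‖(fz n c)^[k + j] w‖ < 4
      rw [Function.iterate_add_apply]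
      exact h2
    exact hanti (k + N) (k + j) (by omega) h3
  choose zs hzs hball using key
  obtain ⟨a, ha, g, hg, hlim⟩ := hKc.tendsto_subseq hzs
  have hsub : ball a (ρ / 2) ⊆ filled n c := by
    intro w hw
    apply hInt k w
    intro l hl
    have h1 : ∀ᶠ m in atTop, zs (g m) ∈ ball a (ρ / 2) :=
      hlim (ball_mem_nhds a (by positivity))
    obtain ⟨m, hm1, hm2⟩ := (h1.and (eventually_ge_atTop l)).exists
    have h3 : l ≤ g m := hm2.trans (hg.id_le m)
    apply hanti l (k + g m) (by omega)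
    apply hball (g m)
    rw [mem_ball] at hw hm1 ⊢
    rw [dist_comm] at hm1
    have := dist_triangle w a (zs (g m))
    linarith
  have : a ∈ interior (filled n c) := by
    rw [mem_interior]
    exact ⟨ball a (ρ / 2), hsub, isOpen_ball, mem_ball_self (by positivity)⟩
  rw [hint] at this
  exact this

end HY
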