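import Pool.Agent.helper52.HY.SpecU
import Pool.Agent.helper43.HY.GRO

set_option autoImplicit false

open Complex Metric Set Filter Topology MeasureTheory
open Pool.Agent.helper98.ILF Pool.Agent.helper16.Multibrot

noncomputable section

namespace HY

/-- GRU: the derivative grows, uniformly. -/
theorem GRU (hCLB : CLB_stmt) (hSHU : SHU_stmt) (hSGE : SGE_stmt) (hVKB : VKB_stmt) (hMGN : MGN_stmt)
    (hDPH : DPH_stmt) (hLMU : LMU_stmt) (hHDI : HDI_stmt) (hKO1 : V3.KO1_stmt) : GRU_stmt := by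
  intro n hn r hr ε hε Λ₀
  obtain ⟨M, hM⟩ := hCLB n hn r hr
  obtain ⟨k, hk⟩ := hSHU n hn r hr ε hε ((1 / 2 : ℝ) ^ M) (by positivity)
  obtain ⟨d, hd, hmgn⟩ := hMGN n hn k
  obtain ⟨C, hC1, hC⟩ := GRO_ball hHDI hKO1
  set L := max Λ₀ 1 with hL
  have hL0 : 0 < L := lt_max_of_lt_right one_pos
  have hCp : 0 < C := by linarith
  have hρ0 : 0 < d / (16 * L * C) := by positivity
  obtain ⟨N, hN⟩ := hLMU n hn r hr (d / (16 * L * C)) hρ0
  refine ⟨N, ?_⟩
  intro c hc hdis j hj z hz hfar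
  by_contra hder
  push Not at hder
  obtain ⟨φ, ψ, b, hSG⟩ := hSGE n c hn hc k
  obtain ⟨_, _, _, _, hKf, _, _, hnest, _, hKV, _, _⟩ := hVKB n c hn hc
  have hrm := hSG.rm
  have hKsub : filled n c ⊆ φ '' UD := by
    rw [hrm.img]
    exact hKV k
  have hanti : ∀ a b : ℕ, a ≤ b → VV n c b ⊆ VV n c a := by
    intro a b hab
    induction b, hab using Nat.le_induction with
    | base => exact subset_rfl
    | succ m _ ih => exact (hnest m).trans ih
  have hiter : ∀ i : ℕ, (fz n c)^[i] z ∈ filled n c := by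
    intro i
    induction i with
    | zero => simpa using hz
    | succ i ih =>
      rw [Function.iterate_succ_apply']
      exact hKf _ ih
  have hex : ∀ i : ℕ, ∃ y ∈ UD, φ y = (fz n c)^[i] z := fun i => hKsub (hiter i)
  choose y hyU hyφ using hex
  have horb : Orb n c φ M y j := by
    refine ⟨fun i _ => hyU i, ?_, ?_⟩
    · intro i _
      rw [hyφ, hyφ, Function.iterate_succ_apply']
    · intro i hi
      refine hk c hc hdis φ hrm (y i) (hyU i) ?_ ?_
      · rw [hyφ]; exact hiter i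
      · rw [hyφ]; exact hfar i hi
  obtain ⟨H, hH, hH0, hrel, _⟩ := hM c hc hdis (VV n c k) φ ψ b hSG y j horb 0 (Nat.zero_le _)
  have hy0 : φ (y 0) = z := by rw [hyφ]; rfl
  have hdφ : d ≤ ‖deriv φ (y j)‖ * (1 - ‖y j‖ ^ 2) := by
    refine hDPH (VV n c k) 0 φ hrm (y j) (hyU j) d hd ?_
    rw [hyφ]
    exact hmgn c hc _ (hiter j)
  have h1 := hC n c φ H (y 0) (y j) j d L hrm.dif hrm.inj hH hH0 (hyU 0) (hyU j)
    (by simpa using hrel) hd hdφ hL0
    (by rw [hy0]; exact hder.trans (le_max_left _ _))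
  rw [hy0] at h1
  refine hN c hc hdis z hz ?_
  intro w hw
  have h2 : (fz n c)^[j] w ∈ VV n c k := by
    rw [← hrm.img]
    exact h1 hw
  have h3 : w ∈ VV n c (k + j) := by
    show ‖(fz n c)^[k + j] w‖ < 4
    rw [Function.iterate_add_apply]
    exact h2
  exact hanti N (k + j) (by omega) h3

end HY
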